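import Mathlib
import Pool.Agent.P.MP_95c763_co.Geom

set_option autoImplicit false

namespace Pool.Agent.Results.MP_95c763_co.ProjectiveGrowth

open Filter Topology Pool.Agent.P.MP_95c763_co

theorem result :
    Tendsto (fun n : ℕ =>
      (((projLines n).card : ℝ) - (minDefining (projPoints n) (projLines n) : ℝ)) ^
        ((1 : ℝ) / (n : ℝ))) atTop (𝓝 (cornerCap 2)) := by
  refine tendsto_cap 2 _ (Real.exp 1 * cornerCap 2) proj_upper fun n => ?_
  obtain ⟨S, hS, hc⟩ := exists_cornerNum (Fin n → ZMod 2)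
  have h := proj_rigid n (rigid_of_cornerFree hS)
  rw [hc] at h
  have h' : (minDefining (projPoints (n + 1)) (projLines (n + 1)) : ℝ) +
      (cornerNum (Fin n → ZMod 2) : ℝ) ≤ ((projLines (n + 1)).card : ℝ) := by exact_mod_cast h
  linarith

end Pool.Agent.Results.MP_95c763_co.ProjectiveGrowth
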