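import Mathlib
import Pool.Agent.P.MP_95c763_co.Weights

set_option autoImplicit false

namespace Pool.Agent.Results.MP_95c763_co.ProjectiveUpper

open Pool.Agent.P.MP_95c763_co

theorem result (n : ℕ) :
    minDefining (projPoints (n + 1)) (projLines (n + 1)) + 138 ^ (n / 4) ≤
      (projLines (n + 1)).card := by
  obtain ⟨T, hT, hc⟩ := exists_rigid_138 n
  rw [← hc]
  exact proj_rigid n hT

end Pool.Agent.Results.MP_95c763_co.ProjectiveUpper
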